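import Pool.Agent.DL.P.V.Stm
import Pool.Agent.DL.P.PushC

/-!
# DELTA (MP_d362fb_lc), row V-E: one round of Lemma V (second version)
-/

set_option autoImplicit false

namespace Pool.Agent.H67.DLV

open H5.DL Relation Pool.Agent.DL.P Pool.Agent.DL.P.V

/-- facts about the events of a legal promise -/
theorem ev_facts {φ : Prom} (h : Legal φ) {m : ℕ} {e : Sys Prom} (he : Ev φ m e) :
    EvOK (LgB φ.lab) φ.lab e ∧ (∀ j y, .nd y ∈ e.X j → y.Free φ.lab) ∧
      (∀ p q, ∀ y ∈ (e.Z p q).N, y.Free φ.lab) ∧ ∀ p q, ∀ l ∈ (e.Z p q).L, Ll l φ.lab := by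
  obtain ⟨Z, -, h2, h3, h4⟩ := ((legal_iff φ).1 h).fr
  obtain ⟨h5, h6⟩ := h4 m e he
  exact ⟨h5, fun j y hy => h3 y (h6.X j _ hy), fun p q y hy => h3 y ((h6.Z p q).1 hy),
    fun p q l hl => h2 l ((h6.Z p q).2.2 hl)⟩

/-- all nodes of an event are in every good frame of the promise -/
theorem ev_nodes {φ : Prom} {Z : Fr Prom} (hZ : φ.In Z) {m : ℕ} {e : Sys Prom} (he : Ev φ m e)
    (p q : ℕ) (y : Node) (hy : y ∈ (e.Z p q).N) : y ∈ Z.N := by
  cases φ with
  | nil k => exact he.elim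
  | mk k c nd lb R =>
    obtain ⟨i, hi⟩ := (he.1.Z p q).1 hy
    rw [← hi]
    exact (hZ.2 i).2.1

theorem lab_mem {φ : Prom} {Z : Fr Prom} (hZ : φ.In Z) : φ.lab ∈ Z.L := by
  cases φ with
  | nil k => exact hZ
  | mk k c nd lb R => exact hZ.1

section

variable {r : Sys Prom} {s0 : Node} {s : ℕ → Node} {Q : Set ℕ} {W : ℕ → Set Node}

theorem notW_of_up (hp : Plan r s0 s Q W) {j : ℕ} (hj : j ∈ r.J) {l : D} (hu : Up l (s j))
    {y : Node} (hf : y.Free l) : y ∉ W j := fun hy => by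
  obtain ⟨ν, d, h1, h2⟩ := hu
  exact hf ν d (hp.Wle j hj y hy ν d h1) h2.le

theorem notW_of_ge (hp : Plan r s0 s Q W) {j : ℕ} (hj : j ∈ r.J) {l : D} (hu : Ge l (s j))
    {y : Node} (hf : y.Free l) : y ∉ W j := fun hy => by
  obtain ⟨ν, d, h1, h2⟩ := hu
  exact hf ν d (hp.Wle j hj y hy ν d h1) h2

theorem Up.of_le {l l' : D} {x : Node} (h : Up l x) (hl : l' ≤ l) : Up l' x := by
  obtain ⟨ν, d, h1, h2⟩ := h
  exact ⟨ν, d, h1, Ll.of_le hl h2⟩

theorem Up.of_ge {l l' : D} {x : Node} (h : Ge l x) (hl : Ll l' l) : Up l' x := by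
  obtain ⟨ν, d, h1, h2⟩ := h
  exact ⟨ν, d, h1, hl.trans_le h2⟩

theorem Plan.Wsh' (hv : Valid Legal r) (hp : Plan r s0 s Q W) {p q : ℕ} (hpq : r.E p q)
    {y : Node} (hy : y ∈ (r.Z p q).N) : y ∈ W p ↔ y ∈ W q :=
  ⟨hp.Wsh p q hpq y hy, hp.Wsh q p (hv.Es p q hpq) y (by rw [hv.symZ q p]; exact hy)⟩

/-- the family of the nodes which may be kept -/
def WN (r : Sys Prom) (W : ℕ → Set Node) (j : ℕ) : Set Node := {y | .nd y ∈ r.X j ∨ y ∉ W j}

/-- the family of the promises which may be kept -/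
def WQ (r : Sys Prom) (k : D) (s : ℕ → Node) (j : ℕ) : Set Prom := {ψ | ψ.lab ∈ lowK r k s j}

theorem lowK_lower (hv : Valid Legal r) {k : D} {j : ℕ} (hj : j ∈ r.J) :
    IsLowerSet (lowK r k s j) := by
  intro a b hab ha
  exact ⟨hv.low j hj hab ha.1, Ll.of_le hab ha.2.1, Up.of_le ha.2.2 hab⟩

theorem star_nd {k : D} {i m j : ℕ} {y : Node} (h : .nd y ∈ (star r k i s m).X j) :
    .nd y ∈ r.X j := by
  rcases h with h | ⟨x, -, h⟩
  · exact h.1
  · cases h

theorem star_it {k : D} {i m j : ℕ} {y : Node} {m' v : ℕ}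
    (h : .it y m' v ∈ (star r k i s m).X j) : .it y m' v ∈ r.X j := by
  rcases h with h | ⟨x, -, h⟩
  · exact h.1
  · cases h

/-- the families are closed -/
theorem clo (hv : Valid Legal r) (hp : Plan r s0 s Q W) {i m : ℕ} (hi : i ∈ Q) {φ : Prom}
    (hφ : .pr φ ∈ r.X i) (hge : Ge φ.lab (s i)) {e : Sys Prom} (he : Ev φ m e) :
    Clo (star r φ.lab i s m) (e.X e.rt) (WN r W) (WQ r φ.lab s) := by
  have hiJ := hp.QJ i hi
  have hleg := ((hv.val i hiJ).leg φ hφ)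
  obtain ⟨h1, h2, h3, h4⟩ := ev_facts hleg.1 he
  have hval := h1.val.val _ h1.val.rt
  have hev : ∀ j ∈ r.J, ∀ ψ ∈ WQ r φ.lab s j, ∀ y : Node, y.Free ψ.lab → y ∈ WN r W j :=
    fun j hj ψ hψ y hy => Or.inr (notW_of_up hp hj hψ.2.2 hy)
  refine ⟨?_, ?_, ?_, ?_, ?_, ?_, ?_, ?_, ?_, ?_, ?_, ?_, ?_, ?_⟩
  · exact fun j _ y hy => Or.inl (star_nd hy)
  · intro j _ ψ hψ
    rcases hψ with hψ | ⟨x, -, h⟩
    · exact hψ.2
    · cases h
  · exact fun x m hx => hval.blx x m hx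
  · exact fun x m v hx => hval.blx x m (hval.itb x m v hx).1
  · exact fun x y hx => hval.dsx x y hx
  · exact fun ψ m hx => hval.rlx ψ m hx
  · exact fun y hy => Or.inr (notW_of_ge hp hiJ hge (h2 _ y hy))
  · intro ψ hψ
    have h5 := (hval.leg ψ hψ).1.1
    exact ⟨hv.low i hiJ h5.le hleg.2, h5, Up.of_ge hge h5⟩
  · exact fun j hj ψ hψ hl m' e' he' y hy => hev j hj ψ hψ y ((ev_facts hl he').2.1 _ y hy)
  · intro j hj ψ hψ hl m' e' he' χ hχ
    have h5 := (ev_facts hl he').1.val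
    exact lowK_lower hv hj ((h5.val _ h5.rt).leg χ hχ).1.1.le hψ
  · exact fun j hj ψ hψ hl m' e' he' a _ y hy => hev j hj ψ hψ y ((ev_facts hl he').2.2.1 _ _ y hy)
  · intro j hj ψ hψ hl m' e' he' a ha χ hχ
    obtain ⟨h5, -, -, h6⟩ := ev_facts hl he'
    exact lowK_lower hv hj (h6 _ _ _ (lab_mem ((h5.val.good _ _ ha).z3 χ hχ))).le hψ
  · intro p q hpq y hy hyW
    rcases hyW with hyW | hyW
    · exact Or.inl (hv.sh p q hpq (.nd y) hy hyW)
    · exact Or.inr fun h => hyW ((Plan.Wsh' hv hp hpq hy).2 h)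
  · intro p q hpq ψ hψ hψW
    have h5 := lab_mem ((hv.good p q hpq).z3 ψ hψ)
    exact ⟨hv.adm p q hpq _ h5 hψW.1, hψW.2.1, hp.adm p q hpq _ h5 hψW.1 hψW.2.2⟩

/-- the invariant holds at the star system -/
theorem inv_star (hv : Valid Legal r) {k : D} {i m : ℕ}
    (h1 : Valid (LgB k) (star r k i s m)) (h2 : Below (dn k) (star r k i s m)) :
    Inv r k i s W m (star r k i s m) where
  val := h1
  bel := h2
  n := le_rfl
  rt := rfl
  J := subset_rfl
  E _ _ _ _ := Iff.rfl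
  K _ _ := rfl
  Z _ _ _ := rfl
  X _ _ := subset_rfl
  it j _ x _ v h := star_it h
  nd j _ y h _ := star_nd h
  frN j _ q hq h := absurd (hv.EJ q j (hv.Es j q h)) hq
  frL j _ q hq h := absurd (hv.EJ q j (hv.Es j q h)) hq

/-- the invariant along a step -/
theorem inv_step (hv : Valid Legal r) (hp : Plan r s0 s Q W) {k : D} {i m : ℕ} {a b : Sys Prom}
    (ha : Inv r k i s W m a) (hs : Step (LgB k) a b) (hb : Below (dn k) b)
    (hR : InvR (star r k i s m) (WN r W) (WQ r k s) b) : Inv r k i s W m b := by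
  have hl := hs.later
  have hK : ∀ j ∈ r.J, b.K j = lowK r k s j := fun j hj => (hl.K j (ha.J hj)).trans (ha.K j hj)
  refine ⟨hs.1, hb, ha.n.trans hl.n, hl.rt.trans ha.rt, ha.J.trans hl.J, ?_, hK, ?_, ?_, ?_, ?_,
    ?_, ?_⟩
  · exact fun p hpJ q hqJ => (hl.E p (ha.J hpJ) q (ha.J hqJ)).trans (ha.E p hpJ q hqJ)
  · intro p q hpq
    have h1 := (ha.E p (hv.EJ p q hpq) q (hv.EJ q p (hv.Es p q hpq))).2 hpq
    exact (hl.Z p q h1).trans (ha.Z p q hpq)
  · exact fun j hj => (ha.X j hj).trans (hl.X j (ha.J hj))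
  · intro j hj x hx v hit
    have hxs : (.nd x : Fact Prom) ∈ (star r k i s m).X j := Or.inl ⟨hx, trivial⟩
    rcases hs.2 with h1 | ⟨m', C, h1⟩
    · exact ha.it j hj x hx v ((h1.X j (ha.J hj)).it x m v (ha.X j hj hxs) hit)
    · rcases (h1.X j _).1 hit with h2 | ⟨y, hy, h2 | h2⟩
      · exact ha.it j hj x hx v h2
      · cases h2
        exact absurd (ha.X j hj (Or.inr ⟨x, hx, rfl⟩)) (h1.free j x hy)
      · cases h2
  · intro j hj y hy hyW
    exact (hR.N j hj y hy).elim id fun h => absurd hyW h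
  · intro j hj q hq hjq y hy
    obtain ⟨ψ, m', e, c, h1, h2, h3, h4⟩ := hR.fr j hj q hq hjq
    have h5 := (hs.1.val j (hl.J (ha.J hj))).leg ψ h1
    rw [hK j hj] at h5
    rw [h4] at hy
    exact notW_of_up hp hj h5.2.2.2 ((ev_facts h5.1.2 h2).2.2.1 _ _ y hy)
  · intro j hj q hq hjq l hl'
    obtain ⟨ψ, m', e, c, h1, h2, h3, h4⟩ := hR.fr j hj q hq hjq
    have h5 := (hs.1.val j (hl.J (ha.J hj))).leg ψ h1
    rw [h4] at hl'
    exact hs.1.low j (hl.J (ha.J hj)) ((ev_facts h5.1.2 h2).2.2.2 _ _ l hl').le h5.2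

/-- the invariant along the restricted sequence -/
theorem inv_chain (hv : Valid Legal r) (hp : Plan r s0 s Q W) {k : D} {i m : ℕ} {b : Sys Prom}
    (h0 : Inv r k i s W m (star r k i s m))
    (hs : ReflTransGen (fun a b => Step (LgB k) a b ∧ Below (dn k) b ∧
      InvR (star r k i s m) (WN r W) (WQ r k s) b) (star r k i s m) b) :
    Inv r k i s W m b := by
  induction hs with
  | refl => exact h0
  | tail _ h ih => exact inv_step hv hp ih h.1 h.2.1 h.2.2

theorem lift_rX {m : ℕ} {t : Sys Prom} {j : ℕ} (hj : j ∈ r.J) {f : Fact Prom} :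
    f ∈ (lift r W m t).X j ↔ f ∈ r.X j ∨ (f ∈ t.X j ∧ ¬ Bad W m j f) := by
  unfold lift
  simp only [if_pos hj]
  exact Iff.rfl

theorem lift_nX {m : ℕ} {t : Sys Prom} {j : ℕ} (hj : j ∉ r.J) :
    (lift r W m t).X j = t.X j := by
  unfold lift
  simp only [if_neg hj]

theorem lift_rK {m : ℕ} {t : Sys Prom} {j : ℕ} (hj : j ∈ r.J) :
    (lift r W m t).K j = r.K j := by
  unfold lift
  simp only [if_pos hj]

theorem lift_nK {m : ℕ} {t : Sys Prom} {j : ℕ} (hj : j ∉ r.J) :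
    (lift r W m t).K j = t.K j := by
  unfold lift
  simp only [if_neg hj]

/-- the first step -/
theorem ext_lift_star {k : D} {i m : ℕ} :
    Ext r (lift r W m (star r k i s m)) where
  n := rfl
  rt := rfl
  J := subset_rfl
  E _ _ _ _ := Iff.rfl
  K j hj := lift_rK hj
  Z _ _ _ := rfl
  X j hj := by
    refine ⟨fun f hf => (lift_rX hj).2 (Or.inl hf), fun x m' v _ h => ?_⟩
    rcases (lift_rX hj).1 h with h | h
    · exact h
    · exact star_it h.1
  rel j hj φ _ m' h h' := by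
    exfalso
    rcases (lift_rX hj).1 h with h | ⟨h | ⟨x, _, h⟩, _⟩
    · exact h' h
    · exact h' h.1
    · cases h

/-- the lifted sequence -/
theorem lift_chain (h3 : SLiftVal) (h4 : SLiftExt) (h5 : SLiftTime) (hv : Valid Legal r)
    (hp : Plan r s0 s Q W) {k : D} {i m : ℕ} (hi : i ∈ Q) {b : Sys Prom}
    (h0 : Inv r k i s W m (star r k i s m))
    (hs : ReflTransGen (fun a b => Step (LgB k) a b ∧ Below (dn k) b ∧
      InvR (star r k i s m) (WN r W) (WQ r k s) b) (star r k i s m) b) :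
    Steps Legal r (lift r W m b) := by
  induction hs with
  | refl =>
    exact ReflTransGen.single ⟨h3 r s0 s Q W k i m _ hv hp hi h0, Or.inl ext_lift_star⟩
  | @tail b c hb h ih =>
    have h1 := inv_chain hv hp h0 hb
    have h2 := inv_step hv hp h1 h.1 h.2.1 h.2.2
    refine ih.tail ⟨h3 r s0 s Q W k i m _ hv hp hi h2, ?_⟩
    rcases h.1.2 with h6 | ⟨m', C, h6⟩
    · exact Or.inl (h4 r s0 s Q W k i m b c hv hp hi h1 h2 h6)
    · exact Or.inr ⟨m', C, h5 r s0 s Q W k i m m' C b c hv hp hi h1 h2 h6⟩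

/-- composition of ancestors -/
theorem anc_trans {r r1 r2 : Sys Prom} {a1 a2 : ℕ → ℕ} (hJ : r.J ⊆ r1.J)
    (h1 : Anc r r1 a1) (h2 : Anc r1 r2 a2) (hE : ∀ p ∈ r1.J, ∀ q ∈ r1.J, r2.E p q ↔ r1.E p q)
    (hv : ∀ p q, r2.E p q → p ∈ r2.J ∧ q ∈ r2.J ∧ r2.E q p) :
    ∃ a, Anc r r2 a := by
  classical
  let a : ℕ → ℕ := fun q => if q ∈ r1.J then a1 q else if a2 q ∈ r.J then a2 q else a1 (a2 q)
  have e1 : ∀ q, q ∈ r1.J → a q = a1 q := fun q hq => if_pos hq
  have e2 : ∀ q, q ∉ r1.J → a2 q ∈ r.J → a q = a2 q := fun q hq hq' => by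
    show (if q ∈ r1.J then a1 q else if a2 q ∈ r.J then a2 q else a1 (a2 q)) = _
    rw [if_neg hq, if_pos hq']
  have e3 : ∀ q, q ∉ r1.J → a2 q ∉ r.J → a q = a1 (a2 q) := fun q hq hq' => by
    show (if q ∈ r1.J then a1 q else if a2 q ∈ r.J then a2 q else a1 (a2 q)) = _
    rw [if_neg hq, if_neg hq']
  refine ⟨a, ?_, ?_, ?_⟩
  · intro q hq hq'
    by_cases h : q ∈ r1.J
    · rw [e1 q h]; exact h1.1 q h hq'
    · by_cases h' : a2 q ∈ r.J
      · rw [e2 q h h']; exact h'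
      · rw [e3 q h h']; exact h1.1 _ (h2.1 q hq h) h'
  · intro q q' hq hq' hqq
    by_cases h : q ∈ r1.J
    · by_cases h' : q' ∈ r1.J
      · rw [e1 q h, e1 q' h']
        exact h1.2.1 q q' hq hq' ((hE q h q' h').1 hqq)
      · have h3 : a2 q' = q := h2.2.2 q h q' h' hqq
        rw [e1 q h, e3 q' h' (by rw [h3]; exact hq), h3]
    · by_cases h' : q' ∈ r1.J
      · have h3 : a2 q = q' := h2.2.2 q' h' q h (hv q q' hqq).2.2
        rw [e1 q' h', e3 q h (by rw [h3]; exact hq'), h3]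
      · have h3 := h2.2.1 q q' h h' hqq
        by_cases h4 : a2 q ∈ r.J
        · rw [e2 q h h4, e2 q' h' (by rw [← h3]; exact h4), h3]
        · rw [e3 q h h4, e3 q' h' (by rw [← h3]; exact h4), h3]
  · intro j hj q hq hjq
    by_cases h : q ∈ r1.J
    · rw [e1 q h]
      exact h1.2.2 j hj q hq ((hE j (hJ hj) q h).1 hjq)
    · have h3 := h2.2.2 j (hJ hj) q h hjq
      rw [e2 q h (by rw [h3]; exact hj), h3]

end

/-- V-E from its parts -/
theorem sroundOf : SRoundOf := by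
  intro hSt hR h3 h4 h5 hPe hAt r s0 s Q W m i φ hc hp hF ho
  obtain ⟨hi, hφ, hrl, hge⟩ := ho
  have hv := hc.val
  have hiJ := hp.QJ i hi
  have hleg := (hv.val i hiJ).leg φ hφ
  obtain ⟨hs1, hs2, hs3⟩ := hSt r s0 s Q W i m φ hv hp hi hφ hge
  obtain ⟨t1, e, hst, hev, hen, hex⟩ := ((legal_iff φ).1 hleg.1).dense (star r φ.lab i s m) hs1
    hs2 hs3 m
  have hst' : StepsIn (LgB φ.lab) (dn φ.lab) (star r φ.lab i s m) t1 := hst
  have hl1 : Later (star r φ.lab i s m) t1 := hst'.steps.later hs1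
  have ht1 : t1.rt = i := hl1.rt
  rw [ht1] at hex
  obtain ⟨f1, f2, f3, f4⟩ := ev_facts hleg.1 hev
  have heval := f1.val.val _ f1.val.rt
  obtain ⟨t2, hch, hn2, hX2, hT2, anc2, hanc2⟩ := hR (LgB φ.lab) (dn φ.lab)
    (star r φ.lab i s m) t1 (e.X e.rt) (WN r W) (WQ r φ.lab s) (fun ψ hψ => hψ.2) hs1 hs3 hst'
    hex.sub (clo hv hp hi hφ hge hev)
  have h0 := inv_star (W := W) hv hs1 hs3
  have hinv := inv_chain hv hp h0 hch
  have hlift := lift_chain h3 h4 h5 hv hp hi h0 hch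
  have hv3 := hlift.valid hv
  have hl3 := hlift.later hv
  have hiW : ∀ y : Node, y.Free φ.lab → y ∉ W i := fun y hy => notW_of_ge hp hiJ hge hy
  have hex3 : Ex (e.X e.rt) ((lift r W m t2).X i) := by
    refine ⟨⟨?_, ?_⟩, ?_⟩
    · intro f hf
      refine (lift_rX hiJ).2 (Or.inr ⟨hT2 hf, ?_⟩)
      cases f with
      | nd x => exact id
      | it x m' v => exact id
      | bl x m' => exact fun h => hiW x (f2 _ x (heval.blx x m' hf)) h.2
      | ds x y =>
        rintro (h | h)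
        · exact hiW x (f2 _ x (heval.dsx x y hf).1) h
        · exact hiW y (f2 _ y (heval.dsx x y hf).2) h
      | pr ψ => exact id
      | rl ψ m' => exact id
    · intro x m' v hx h
      refine hex.it x m' v hx ?_
      rcases (lift_rX hiJ).1 h with h | h
      · exact hX2 i (hinv.X i hiJ (Or.inl ⟨h, trivial⟩))
      · exact hX2 i h.1
    · intro ψ m' hψ h
      refine hex.rl ψ m' hψ ?_
      rcases (lift_rX hiJ).1 h with h | h
      · refine hX2 i (hinv.X i hiJ (Or.inl ⟨h, ?_⟩))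
        have h6 := (heval.leg ψ hψ).1.1
        exact ⟨hv.low i hiJ h6.le hleg.2, h6, Up.of_ge hge h6⟩
      · exact hX2 i h.1
  obtain ⟨t, hvt, hext, hrlt, hXt, hEt, hKt, anc3, hanc3⟩ := hAt (lift r W m t2) e φ i m hv3
    (hl3.J hiJ) (hl3.X i hiJ hφ) hev (by rw [hen, ← hn2]; rfl) hex3
  have hstep : Step Legal (lift r W m t2) t := ⟨hvt, Or.inl hext⟩
  have hsteps : Steps Legal r t := hlift.tail hstep
  have hl := hsteps.later hv
  have hlt := hstep.later
  -- facts of `t` at old components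
  have hXr : ∀ j ∈ r.J, ∀ f ∈ t.X j, f ∈ r.X j ∨ (f ∈ t2.X j ∧ ¬ Bad W m j f) ∨
      f = .rl φ m := by
    intro j hj f hf
    rcases hXt j (hl3.J hj) f hf with h | h
    · rcases (lift_rX hj).1 h with h | h
      · exact Or.inl h
      · exact Or.inr (Or.inl h)
    · exact Or.inr (Or.inr h)
  have hnd : ∀ j ∈ r.J, ∀ y, .nd y ∈ t.X j → y ∈ W j → .nd y ∈ r.X j := by
    intro j hj y hy hyW
    rcases hXr j hj _ hy with h | h | h
    · exact h
    · exact hinv.nd j hj y h.1 hyW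
    · cases h
  have hit : ∀ j ∈ r.J, ∀ x v, .nd x ∈ r.X j → .it x m v ∈ t.X j → .it x m v ∈ r.X j := by
    intro j hj x v hx h
    rcases hXr j hj _ h with h | h | h
    · exact h
    · exact hinv.it j hj x hx v h.1
    · cases h
  -- the path to a component which shares the promise
  have hconn : ∀ j, Conn (lift r W m t2) φ i j → j ∈ r.J ∧
      ∀ y : Node, (∀ Z : Fr Prom, φ.In Z → y ∈ Z.N) → y ∈ W j → y ∈ W i := by
    intro j hj
    induction hj with
    | refl => exact ⟨hiJ, fun y _ h => h⟩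
    | @tail p q _ hpq ih =>
      obtain ⟨hpJ, hpW⟩ := ih
      have hIn : φ.In ((lift r W m t2).Z p q) := (hv3.good p q hpq.1).z3 φ hpq.2
      have hqJ : q ∈ r.J := by
        by_contra hqJ
        have h6 := hinv.frL p hpJ q hqJ hpq.1 _ (lab_mem hIn)
        rw [hinv.K p hpJ] at h6
        exact Ll.irrefl _ h6.2.1
      have hE : r.E p q := (hinv.E p hpJ q hqJ).1 hpq.1
      refine ⟨hqJ, fun y hy hyW => hpW y hy ?_⟩
      refine (Plan.Wsh' hv hp hE ?_).2 hyW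
      have h6 := hy _ hIn
      rwa [show (lift r W m t2).Z p q = r.Z p q from hinv.Z p q hE] at h6
  have haway : Away r W t := by
    refine ⟨hl.rt, hl.J, hl.E, hl.K, hl.Z, hnd, ?_, ?_⟩
    · intro j hj q hq hjq y hy hyW
      by_cases hq3 : q ∈ (lift r W m t2).J
      · have hE : (lift r W m t2).E j q := (hext.E j (hl3.J hj) q hq3).1 hjq
        rw [hext.Z j q hE] at hy
        exact hinv.frN j hj q hq hE y hy hyW
      · obtain ⟨hcn, a, ha, hZ⟩ := hEt j (hl3.J hj) q hq3 hjq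
        rw [hZ] at hy
        refine hiW y (f3 _ _ y hy) ((hconn j hcn).2 y (fun Z hZ' => ?_) hyW)
        exact ev_nodes hZ' hev _ _ y hy
    · have hanc2' : Anc r (lift r W m t2) anc2 := hanc2
      exact anc_trans hl3.J hanc2' hanc3 hext.E fun p q hpq =>
        ⟨hvt.EJ p q hpq, hvt.EJ q p (hvt.Es p q hpq), hvt.Es p q hpq⟩
  obtain ⟨s', W', hp', hsW, hW'⟩ := hPe Legal r t s0 s Q W hv hvt hp haway
  have hX0 : ∀ {j : ℕ} {f : Fact Prom}, f ∈ t.X j → j ∈ t.J := by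
    intro j f hf
    by_contra hj
    rw [hvt.nX j hj] at hf
    exact hf
  have hWold : ∀ {j : ℕ} {x : Node}, j ∈ t.J → x ∈ W' j → j ∈ r.J ∧ x ∈ W j := by
    intro j x hj hx
    by_cases hjr : j ∈ r.J
    · rw [(hsW j hjr).2] at hx
      exact ⟨hjr, hx⟩
    · rw [hW' j hj hjr] at hx
      exact hx.elim
  refine ⟨t, s', W', ⟨hvt, ?_, ?_⟩, hsteps, hp', ⟨?_, ?_, ?_⟩, hl.rt, ?_, ?_, hit⟩
  · rw [hl.rt, hl.K _ hv.rt]
    exact hc.top
  · intro j hj hne
    by_cases hjr : j ∈ r.J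
    · rw [hl.K j hjr]
      exact hc.bdd j hjr (by rw [← hl.rt]; exact hne)
    · refine ⟨φ.lab, ?_⟩
      by_cases hj3 : j ∈ (lift r W m t2).J
      · rw [hlt.K j hj3, lift_nK hjr]
        exact hinv.bel j hj3
      · exact hKt j hj hj3
  · exact lt_of_lt_of_le hF.n hl.n
  · intro j x hx hxW hb
    obtain ⟨hjr, hxW⟩ := hWold (hX0 hx) hxW
    rcases hXr j hjr _ hb with h | h | h
    · exact hF.fr j x (hnd j hjr x hx hxW) hxW h
    · exact h.2 ⟨rfl, hxW⟩
    · cases h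
  · intro j x y hx hxW hy hyW htok v hv'
    obtain ⟨hjr, hxW⟩ := hWold (hX0 hx) hxW
    rw [(hsW j hjr).2] at hyW
    have htok' : .ds x y ∈ r.X j ∨ .ds y x ∈ r.X j := by
      rcases htok with h | h
      · rcases hXr j hjr _ h with h | h | h
        · exact Or.inl h
        · exact absurd (Or.inl hxW) h.2
        · cases h
      · rcases hXr j hjr _ h with h | h | h
        · exact Or.inr h
        · exact absurd (Or.inr hxW) h.2
        · cases h
    have hyr : .nd y ∈ r.X j := by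
      rcases htok' with h | h
      · exact ((hv.val j hjr).dsx _ _ h).2
      · exact ((hv.val j hjr).dsx _ _ h).1
    have hxr : .nd x ∈ r.X j := hnd j hjr x hx hxW
    exact hF.tok j x y hxr hxW hyr hyW htok' v (hit j hjr y v hyr hv')
  · exact fun h => h.2.2.1 hrlt
  · rintro ⟨q, ψ⟩ ⟨hq, hψ, hnr, hge'⟩
    have hqr := hp.QJ q hq
    have hge'' : Ge ψ.lab (s q) := by
      have h6 : Ge ψ.lab (s' q) := hge'
      rw [(hsW q hqr).1] at h6
      exact h6
    rcases hXr q hqr _ hψ with h | h | h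
    · exact Or.inl ⟨hq, h, fun h6 => hnr (hl.X q hqr h6), hge''⟩
    · exact Or.inr ((hinv.val.val q (hinv.J hqr)).leg ψ h.1).1.1
    · cases h

end Pool.Agent.H67.DLV
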